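import Pool.Agent.K1H4.PC.Final

/-!
# The fixed points of the iterated Pearson correlation map

`corrMap A` is the matrix of the correlation coefficients of the rows of `A`; `IsFix A` says that
`A` is a correlation matrix without constant rows and `corrMap A = A`.

**Theorem.** The fixed points are exactly the matrices with diagonal entries `1` of the form

  `A i j = ℓ(c i)² P i j + μ(c i)(c j) h i h j`,

where `c` divides the indices into classes, the numbers `ℓ a > 0` are distinct, `P` is an orthogonal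
projection in block form for these classes with `P 1 = 0` and `P h = 0`, the vector `h ≠ 1` satisfies
`∑ h i² = ∑ h i` on each class, and, if `q a` denotes these sums, `μ` is the unique solution, positive
definite on the support of `q` and zero elsewhere, of the equation for `k × k` matrices
`μ (diag q - q qᵀ/n) μ = L μ L`, `L = diag ℓ`; there is always exactly one such `μ`. The classes are
the sets of the rows with the same variance, `ℓ(c i)²` is `n` times the variance of the row `i`, and
`P`, `h`, `μ` are uniquely determined by `A`. In particular (`h = 0`) the fixed points with row sums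
zero are, up to a permutation of the indices, exactly the direct sums of multiples of orthogonal
projections with constant diagonals and row sums zero.
-/

set_option autoImplicit false

namespace Pool.Agent.Results.MP_f2d8fc_an.Parametrization

open Pool.Agent.K1H4.PC

theorem result :
    (∀ (n k : ℕ) (ℓ q : Fin k → ℝ), (∀ a, 0 < ℓ a) → (∀ a, 0 ≤ q a) → ∑ a, q a < n →
      ∃! μ : Matrix (Fin k) (Fin k) ℝ, Adm n ℓ q μ) ∧
    ∀ (n : ℕ) (A : Matrix (Fin n) (Fin n) ℝ), 0 < n →
      (IsFix A ↔ (∃ (k : ℕ) (c : Fin n → Fin k) (ℓ : Fin k → ℝ) (P : Matrix (Fin n) (Fin n) ℝ)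
        (h : Fin n → ℝ) (μ : Matrix (Fin k) (Fin k) ℝ), Rep A c ℓ P h μ) ∧ ∀ i, A i i = 1) ∧
      (∀ (k : ℕ) (c : Fin n → Fin k) (ℓ : Fin k → ℝ) (P : Matrix (Fin n) (Fin n) ℝ)
        (h : Fin n → ℝ) (μ : Matrix (Fin k) (Fin k) ℝ), IsFix A → Rep A c ℓ P h μ →
        (∀ i, ℓ (c i) ^ 2 = ∑ j, (A i j - mean (A i)) ^ 2) ∧
        ∀ (P' : Matrix (Fin n) (Fin n) ℝ) (h' : Fin n → ℝ) (μ' : Matrix (Fin k) (Fin k) ℝ),
          Rep A c ℓ P' h' μ' → P' = P ∧ h' = h ∧ μ' = μ) ∧
      ((IsFix A ∧ ∀ i, ∑ j, A i j = 0) ↔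
        ∃ (k : ℕ) (c : Fin n → Fin k) (ℓ : Fin k → ℝ) (P : Matrix (Fin n) (Fin n) ℝ),
          Data c ℓ P 0 ∧ (∀ i j, A i j = ℓ (c i) ^ 2 * P i j) ∧ ∀ i, ℓ (c i) ^ 2 * P i i = 1) :=
  ⟨final_mu, fun _ A hn => ⟨final_iff hn A,
    fun _ _ _ _ _ _ hA hr => ⟨final_var hn hA hr, fun _ _ _ hr' => final_unique hA hr hr'⟩,
    final_zero hn A⟩⟩

end Pool.Agent.Results.MP_f2d8fc_an.Parametrization
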